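import Mathlib

/-!
# Neighbouring versus antipodal pairs

Part 1: a one-dimensional Schur test for almost monotone relations.
Part 2: the higher-dimensional version, by induction on the coordinates.
-/

set_option autoImplicit false

namespace Pool.Agent.V11168.NA

open Finset

/-! ### Part 1 -/

/-- `∑_{j<W} 1/√max(1,j) ≤ 3√W`. -/
theorem sum_phi (W : ℕ) : ∑ j ∈ range W, 1 / √(max 1 (j : ℝ)) ≤ 3 * √(W : ℝ) := by
  induction W with
  | zero => simp
  | succ W ih =>
    rw [Finset.sum_range_succ]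
    rcases Nat.eq_zero_or_pos W with h | h
    · subst h; simp
    · have hW : (1 : ℝ) ≤ W := by exact_mod_cast h
      rw [max_eq_right hW]
      have h1 : 0 < √(W : ℝ) := Real.sqrt_pos.2 (by linarith)
      have h2 : √((W + 1 : ℕ) : ℝ) ≤ 2 * √(W : ℝ) := by
        rw [show (2 : ℝ) * √(W : ℝ) = √(4 * W) by
          rw [Real.sqrt_mul (by norm_num), show (4 : ℝ) = 2 ^ 2 by norm_num,
            Real.sqrt_sq (by norm_num)]]
        apply Real.sqrt_le_sqrt
        push_cast; linarith
      have h3 : √((W + 1 : ℕ) : ℝ) ^ 2 = W + 1 := by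
        rw [Real.sq_sqrt (by positivity)]; push_cast; ring
      have h4 : √(W : ℝ) ^ 2 = W := Real.sq_sqrt (by linarith)
      have h5 : 1 / √(W : ℝ) ≤ 3 * √((W + 1 : ℕ) : ℝ) - 3 * √(W : ℝ) := by
        rw [div_le_iff₀ h1]
        have h6 : 0 < √((W + 1 : ℕ) : ℝ) := Real.sqrt_pos.2 (by positivity)
        have h7 : (√((W + 1 : ℕ) : ℝ) - √(W : ℝ)) * (√((W + 1 : ℕ) : ℝ) + √(W : ℝ)) = 1 := by
          have h9 : (√((W + 1 : ℕ) : ℝ) - √(W : ℝ)) * (√((W + 1 : ℕ) : ℝ) + √(W : ℝ)) =
            √((W + 1 : ℕ) : ℝ) ^ 2 - √(W : ℝ) ^ 2 := by ring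
          rw [h9, h3, h4]; ring
        have h8 : √(W : ℝ) ≤ √((W + 1 : ℕ) : ℝ) := Real.sqrt_le_sqrt (by push_cast; linarith)
        nlinarith
      linarith

/-- A sum over a finset of integers of a nonneg function of the rank from above. -/
theorem sum_rank_up (Z : Finset ℤ) :
    ∑ z ∈ Z, 1 / √(max 1 ((Z.filter (fun w => z < w)).card : ℝ)) ≤ 3 * √(Z.card : ℝ) := by
  have hinj : Set.InjOn (fun z => (Z.filter (fun w => z < w)).card) (Z : Set ℤ) := by
    intro z hz z' hz' h
    by_contra hne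
    rcases lt_or_gt_of_ne hne with hlt | hlt
    · have : (Z.filter (fun w => z' < w)).card < (Z.filter (fun w => z < w)).card := by
        apply Finset.card_lt_card
        rw [Finset.ssubset_iff_of_subset (fun w hw => by
          rw [Finset.mem_filter] at hw ⊢; exact ⟨hw.1, hlt.trans hw.2⟩)]
        exact ⟨z', by simpa [hlt] using hz', by simp⟩
      exact absurd h this.ne'
    · have : (Z.filter (fun w => z < w)).card < (Z.filter (fun w => z' < w)).card := by
        apply Finset.card_lt_card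
        rw [Finset.ssubset_iff_of_subset (fun w hw => by
          rw [Finset.mem_filter] at hw ⊢; exact ⟨hw.1, hlt.trans hw.2⟩)]
        exact ⟨z, by simpa [hlt] using hz, by simp⟩
      exact absurd h this.ne
  calc ∑ z ∈ Z, 1 / √(max 1 ((Z.filter (fun w => z < w)).card : ℝ))
      = ∑ j ∈ Z.image (fun z => (Z.filter (fun w => z < w)).card), 1 / √(max 1 (j : ℝ)) := by
        rw [Finset.sum_image hinj]
    _ ≤ ∑ j ∈ range Z.card, 1 / √(max 1 (j : ℝ)) := by
        apply Finset.sum_le_sum_of_subset_of_nonneg _ fun _ _ _ => by positivity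
        intro j hj
        rw [Finset.mem_image] at hj
        obtain ⟨z, hz, rfl⟩ := hj
        rw [Finset.mem_range]
        apply Finset.card_lt_card
        rw [Finset.ssubset_iff_of_subset (Finset.filter_subset _ _)]
        exact ⟨z, hz, by simp⟩
    _ ≤ _ := sum_phi _

theorem sum_rank_down (Z : Finset ℤ) :
    ∑ z ∈ Z, 1 / √(max 1 ((Z.filter (fun w => w < z)).card : ℝ)) ≤ 3 * √(Z.card : ℝ) := by
  have h := sum_rank_up (Z.map (Equiv.neg ℤ).toEmbedding)
  rw [Finset.sum_map, Finset.card_map] at h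
  refine le_trans (le_of_eq ?_) h
  refine Finset.sum_congr rfl fun z _ => ?_
  congr 4
  rw [Finset.filter_map, Finset.card_map]
  congr 1
  ext w
  simp

/-- The key counting estimate: rows. -/
theorem row (S T : Finset ℤ) (E : ℤ → ℤ → Prop) [∀ x z, Decidable (E x z)] (R : ℝ) (hR : 1 ≤ R)
    (hE : ∀ x ∈ S, ∀ x' ∈ S, ∀ z ∈ T, ∀ z' ∈ T, E x z' → E x' z → x < x' → z < z' →
      ((x' : ℝ) - x) * (z' - z) ≤ R)
    (hS : ∀ x ∈ S, ∀ x' ∈ S, (x' : ℝ) - x ≤ R) (hT : ∀ z ∈ T, ∀ z' ∈ T, (z' : ℝ) - z ≤ R)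
    (x : ℤ) (hx : x ∈ S) :
    ∑ z ∈ T.filter (fun z => E x z), √((S.filter (fun x' => E x' z)).card : ℝ) ≤
      9 * √R * √((T.filter (fun z => E x z)).card : ℝ) := by
  set Z := T.filter (fun z => E x z) with hZ
  -- number of integers in `(x, x + ρ]`
  have cnt : ∀ (A : Finset ℤ) (ρ : ℝ), 0 ≤ ρ → (∀ y ∈ A, x < y ∧ (y : ℝ) - x ≤ ρ) →
      (A.card : ℝ) ≤ ρ := by
    intro A ρ hρ hA
    have h1 : A ⊆ Finset.Ioc x (x + ⌊ρ⌋) := by
      intro y hy
      rw [Finset.mem_Ioc]
      refine ⟨(hA y hy).1, ?_⟩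
      have h2 := (hA y hy).2
      have h3 : y - x ≤ ⌊ρ⌋ := by
        rw [Int.le_floor]; push_cast; exact h2
      linarith
    have h2 := Finset.card_le_card h1
    rw [Int.card_Ioc] at h2
    have h3 : (0 : ℤ) ≤ ⌊ρ⌋ := Int.floor_nonneg.2 hρ
    have h4 : ((x + ⌊ρ⌋ - x).toNat : ℝ) = (⌊ρ⌋ : ℝ) := by
      rw [add_sub_cancel_left]
      exact_mod_cast Int.toNat_of_nonneg h3
    calc (A.card : ℝ) ≤ ((x + ⌊ρ⌋ - x).toNat : ℝ) := by exact_mod_cast h2
      _ = (⌊ρ⌋ : ℝ) := h4
      _ ≤ ρ := Int.floor_le ρ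
  have cnt' : ∀ (A : Finset ℤ) (ρ : ℝ), 0 ≤ ρ → (∀ y ∈ A, y < x ∧ (x : ℝ) - y ≤ ρ) →
      (A.card : ℝ) ≤ ρ := by
    intro A ρ hρ hA
    have h1 : A ⊆ Finset.Ico (x - ⌊ρ⌋) x := by
      intro y hy
      rw [Finset.mem_Ico]
      refine ⟨?_, (hA y hy).1⟩
      have h2 := (hA y hy).2
      have h3 : x - y ≤ ⌊ρ⌋ := by
        rw [Int.le_floor]; push_cast; exact h2
      linarith
    have h2 := Finset.card_le_card h1
    rw [Int.card_Ico] at h2
    have h3 : (0 : ℤ) ≤ ⌊ρ⌋ := Int.floor_nonneg.2 hρ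
    have h4 : ((x - (x - ⌊ρ⌋)).toNat : ℝ) = (⌊ρ⌋ : ℝ) := by
      rw [sub_sub_cancel]
      exact_mod_cast Int.toNat_of_nonneg h3
    calc (A.card : ℝ) ≤ ((x - (x - ⌊ρ⌋)).toNat : ℝ) := by exact_mod_cast h2
      _ = (⌊ρ⌋ : ℝ) := h4
      _ ≤ ρ := Int.floor_le ρ
  have key : ∀ z ∈ Z, √((S.filter (fun x' => E x' z)).card : ℝ) ≤
      √R * (√3 * (1 / √(max 1 ((Z.filter (fun w => z < w)).card : ℝ))) +
        1 / √(max 1 ((Z.filter (fun w => w < z)).card : ℝ))) := by
    intro z hz
    have hzT : z ∈ T := (Finset.mem_filter.1 hz).1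
    have hxz : E x z := (Finset.mem_filter.1 hz).2
    set r := (Z.filter (fun w => z < w)).card with hr
    set l := (Z.filter (fun w => w < z)).card with hl
    have hr1 : (1 : ℝ) ≤ max 1 (r : ℝ) := le_max_left _ _
    have hl1 : (1 : ℝ) ≤ max 1 (l : ℝ) := le_max_left _ _
    -- upper part
    have hup : ((S.filter (fun x' => E x' z ∧ x < x')).card : ℝ) ≤ R / max 1 (r : ℝ) := by
      apply cnt _ _ (by positivity)
      intro y hy
      rw [Finset.mem_filter] at hy
      refine ⟨hy.2.2, ?_⟩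
      rw [le_div_iff₀ (by positivity)]
      have hyx : (0 : ℝ) ≤ (y : ℝ) - x := by
        have : (x : ℝ) < y := by exact_mod_cast hy.2.2
        linarith
      rcases Nat.eq_zero_or_pos r with h0 | h0
      · rw [h0]; simp only [Nat.cast_zero, zero_le_one, max_eq_left, mul_one]
        exact hS x hx y hy.1
      · have hr' : (1 : ℝ) ≤ r := by exact_mod_cast h0
        rw [max_eq_right hr']
        -- the largest element
        obtain ⟨w0, hw0⟩ : (Z.filter (fun w => z < w)).Nonempty := Finset.card_pos.1 h0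
        set M := (Z.filter (fun w => z < w)).max' ⟨w0, hw0⟩ with hM
        have hMmem := Finset.max'_mem (Z.filter (fun w => z < w)) ⟨w0, hw0⟩
        rw [← hM] at hMmem
        rw [Finset.mem_filter] at hMmem
        have hsub : Z.filter (fun w => z < w) ⊆ Finset.Ioc z M := by
          intro w hw
          rw [Finset.mem_Ioc]
          exact ⟨(Finset.mem_filter.1 hw).2, Finset.le_max' _ w hw⟩
        have hcard := Finset.card_le_card hsub
        rw [Int.card_Ioc] at hcard
        have hrM : (r : ℝ) ≤ (M : ℝ) - z := by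
          have h1 : ((M - z).toNat : ℤ) = M - z := Int.toNat_of_nonneg (by linarith [hMmem.2])
          have h2 : (r : ℤ) ≤ M - z := by rw [← h1]; exact_mod_cast hcard
          exact_mod_cast h2
        have hMZ := Finset.mem_filter.1 hMmem.1
        have := hE x hx y hy.1 z hzT M hMZ.1 hMZ.2 hy.2.1 hy.2.2 hMmem.2
        calc ((y : ℝ) - x) * r ≤ ((y : ℝ) - x) * (M - z) := mul_le_mul_of_nonneg_left hrM hyx
          _ ≤ R := this
    have hdown : ((S.filter (fun x' => E x' z ∧ x' < x)).card : ℝ) ≤ R / max 1 (l : ℝ) := by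
      apply cnt' _ _ (by positivity)
      intro y hy
      rw [Finset.mem_filter] at hy
      refine ⟨hy.2.2, ?_⟩
      rw [le_div_iff₀ (by positivity)]
      have hyx : (0 : ℝ) ≤ (x : ℝ) - y := by
        have : (y : ℝ) < x := by exact_mod_cast hy.2.2
        linarith
      rcases Nat.eq_zero_or_pos l with h0 | h0
      · rw [h0]; simp only [Nat.cast_zero, zero_le_one, max_eq_left, mul_one]
        exact hS y hy.1 x hx
      · have hr' : (1 : ℝ) ≤ l := by exact_mod_cast h0
        rw [max_eq_right hr']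
        obtain ⟨w0, hw0⟩ : (Z.filter (fun w => w < z)).Nonempty := Finset.card_pos.1 h0
        set M := (Z.filter (fun w => w < z)).min' ⟨w0, hw0⟩ with hM
        have hMmem := Finset.min'_mem (Z.filter (fun w => w < z)) ⟨w0, hw0⟩
        rw [← hM] at hMmem
        rw [Finset.mem_filter] at hMmem
        have hsub : Z.filter (fun w => w < z) ⊆ Finset.Ico M z := by
          intro w hw
          rw [Finset.mem_Ico]
          exact ⟨Finset.min'_le _ w hw, (Finset.mem_filter.1 hw).2⟩
        have hcard := Finset.card_le_card hsub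
        rw [Int.card_Ico] at hcard
        have hrM : (l : ℝ) ≤ (z : ℝ) - M := by
          have h1 : ((z - M).toNat : ℤ) = z - M := Int.toNat_of_nonneg (by linarith [hMmem.2])
          have h2 : (l : ℤ) ≤ z - M := by rw [← h1]; exact_mod_cast hcard
          exact_mod_cast h2
        have hMZ := Finset.mem_filter.1 hMmem.1
        have := hE y hy.1 x hx M hMZ.1 z hzT hy.2.1 hMZ.2 hy.2.2 hMmem.2
        calc ((x : ℝ) - y) * l ≤ ((x : ℝ) - y) * (z - M) := mul_le_mul_of_nonneg_left hrM hyx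
          _ ≤ R := this
    -- the whole column
    have hcol : ((S.filter (fun x' => E x' z)).card : ℝ) ≤
        ((S.filter (fun x' => E x' z ∧ x < x')).card : ℝ) +
        ((S.filter (fun x' => E x' z ∧ x' < x)).card : ℝ) + 1 := by
      have hsub : S.filter (fun x' => E x' z) ⊆ (S.filter (fun x' => E x' z ∧ x < x') ∪
          S.filter (fun x' => E x' z ∧ x' < x)) ∪ {x} := by
        intro y hy
        rw [Finset.mem_filter] at hy
        simp only [Finset.mem_union, Finset.mem_filter, Finset.mem_singleton]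
        rcases lt_trichotomy x y with h | h | h
        · exact Or.inl (Or.inl ⟨hy.1, hy.2, h⟩)
        · exact Or.inr h.symm
        · exact Or.inl (Or.inr ⟨hy.1, hy.2, h⟩)
      have h1 : (S.filter (fun x' => E x' z)).card ≤ (S.filter (fun x' => E x' z ∧ x < x')).card +
          (S.filter (fun x' => E x' z ∧ x' < x)).card + 1 :=
        calc _ ≤ _ := Finset.card_le_card hsub
          _ ≤ _ := Finset.card_union_le _ _
          _ ≤ _ := by
            rw [Finset.card_singleton]
            exact Nat.add_le_add_right (Finset.card_union_le _ _) 1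
      exact_mod_cast h1
    -- `r ≤ R`
    have hrR : max 1 (r : ℝ) ≤ R := by
      apply max_le hR
      rcases Nat.eq_zero_or_pos r with h0 | h0
      · rw [h0]; simp; linarith
      · obtain ⟨w0, hw0⟩ : (Z.filter (fun w => z < w)).Nonempty := Finset.card_pos.1 h0
        set M := (Z.filter (fun w => z < w)).max' ⟨w0, hw0⟩ with hM
        have hMmem := Finset.max'_mem (Z.filter (fun w => z < w)) ⟨w0, hw0⟩
        rw [← hM] at hMmem
        rw [Finset.mem_filter] at hMmem
        have hsub : Z.filter (fun w => z < w) ⊆ Finset.Ioc z M := by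
          intro w hw
          rw [Finset.mem_Ioc]
          exact ⟨(Finset.mem_filter.1 hw).2, Finset.le_max' _ w hw⟩
        have hcard := Finset.card_le_card hsub
        rw [Int.card_Ioc] at hcard
        have hrM : (r : ℝ) ≤ (M : ℝ) - z := by
          have h1 : ((M - z).toNat : ℤ) = M - z := Int.toNat_of_nonneg (by linarith [hMmem.2])
          have h2 : (r : ℤ) ≤ M - z := by rw [← h1]; exact_mod_cast hcard
          exact_mod_cast h2
        have := hT z hzT M (Finset.mem_filter.1 hMmem.1).1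
        linarith
    have h1R : (1 : ℝ) ≤ R / max 1 (r : ℝ) := by
      rw [le_div_iff₀ (by positivity), one_mul]; exact hrR
    have htot : ((S.filter (fun x' => E x' z)).card : ℝ) ≤ 3 * (R / max 1 (r : ℝ)) +
        R / max 1 (l : ℝ) := by linarith
    calc √((S.filter (fun x' => E x' z)).card : ℝ) ≤ √(3 * (R / max 1 (r : ℝ)) +
          R / max 1 (l : ℝ)) := Real.sqrt_le_sqrt htot
      _ ≤ √(3 * (R / max 1 (r : ℝ))) + √(R / max 1 (l : ℝ)) := by
          rw [Real.sqrt_le_left (by positivity), add_sq, Real.sq_sqrt (by positivity),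
            Real.sq_sqrt (by positivity)]
          have : 0 ≤ 2 * √(3 * (R / max 1 (r : ℝ))) * √(R / max 1 (l : ℝ)) := by positivity
          linarith
      _ = _ := by
          rw [Real.sqrt_mul (by norm_num), Real.sqrt_div (by linarith),
            Real.sqrt_div (by linarith)]
          ring
  calc _ ≤ ∑ z ∈ Z, √R * (√3 * (1 / √(max 1 ((Z.filter (fun w => z < w)).card : ℝ))) +
        1 / √(max 1 ((Z.filter (fun w => w < z)).card : ℝ))) := Finset.sum_le_sum key
    _ = √R * (√3 * ∑ z ∈ Z, (1 / √(max 1 ((Z.filter (fun w => z < w)).card : ℝ))) +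
        ∑ z ∈ Z, 1 / √(max 1 ((Z.filter (fun w => w < z)).card : ℝ))) := by
        rw [← Finset.mul_sum, Finset.sum_add_distrib, ← Finset.mul_sum]
    _ ≤ √R * (√3 * (3 * √(Z.card : ℝ)) + 3 * √(Z.card : ℝ)) := by
        apply mul_le_mul_of_nonneg_left _ (Real.sqrt_nonneg _)
        exact add_le_add (mul_le_mul_of_nonneg_left (sum_rank_up Z) (Real.sqrt_nonneg _))
          (sum_rank_down Z)
    _ ≤ 9 * √R * √(Z.card : ℝ) := by
        have h3 : √(3 : ℝ) ≤ 2 := by rw [Real.sqrt_le_left (by norm_num)]; norm_num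
        have h4 : 0 ≤ √R * √(Z.card : ℝ) := by positivity
        nlinarith

/-- The one-dimensional operator bound. -/
theorem oneD (S T : Finset ℤ) (E : ℤ → ℤ → Prop) [∀ x z, Decidable (E x z)] (R : ℝ) (hR : 1 ≤ R)
    (hE : ∀ x ∈ S, ∀ x' ∈ S, ∀ z ∈ T, ∀ z' ∈ T, E x z' → E x' z → x < x' → z < z' →
      ((x' : ℝ) - x) * (z' - z) ≤ R)
    (hS : ∀ x ∈ S, ∀ x' ∈ S, (x' : ℝ) - x ≤ R) (hT : ∀ z ∈ T, ∀ z' ∈ T, (z' : ℝ) - z ≤ R)
    (f : ℤ → ℝ) :
    ∑ z ∈ T, (∑ x ∈ S.filter (fun x => E x z), f x) ^ 2 ≤ 81 * R * ∑ x ∈ S, f x ^ 2 := by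
  have hrow := row S T E R hR hE hS hT
  have hcol := row T S (fun z x => E x z) R hR (fun z hz z' hz' x hx x' hx' h1 h2 h3 h4 => by
    rw [mul_comm]
    exact hE x hx x' hx' z hz z' hz' h2 h1 h4 h3) hT hS
  have h1 : ∀ z ∈ T, (∑ x ∈ S.filter (fun x => E x z), f x) ^ 2 ≤
      (9 * √R * √((S.filter (fun x => E x z)).card : ℝ)) *
        ∑ x ∈ S.filter (fun x => E x z), f x ^ 2 / √((T.filter (fun w => E x w)).card : ℝ) := by
    intro z hz
    have h2 : (∑ x ∈ S.filter (fun x => E x z), f x) ^ 2 ≤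
        (∑ x ∈ S.filter (fun x => E x z), √((T.filter (fun w => E x w)).card : ℝ)) *
        ∑ x ∈ S.filter (fun x => E x z), f x ^ 2 / √((T.filter (fun w => E x w)).card : ℝ) := by
      apply Finset.sum_sq_le_sum_mul_sum_of_sq_le_mul
      · intro x _; positivity
      · intro x _; positivity
      · intro x hx
        rw [Finset.mem_filter] at hx
        have hpos : 0 < √((T.filter (fun w => E x w)).card : ℝ) := by
          apply Real.sqrt_pos.2
          have : 0 < (T.filter (fun w => E x w)).card :=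
            Finset.card_pos.2 ⟨z, Finset.mem_filter.2 ⟨hz, hx.2⟩⟩
          exact_mod_cast this
        apply le_of_eq
        field_simp
    refine h2.trans (mul_le_mul_of_nonneg_right (hcol z hz) ?_)
    exact Finset.sum_nonneg fun _ _ => by positivity
  calc _ ≤ ∑ z ∈ T, (9 * √R * √((S.filter (fun x => E x z)).card : ℝ)) *
        ∑ x ∈ S.filter (fun x => E x z), f x ^ 2 / √((T.filter (fun w => E x w)).card : ℝ) :=
        Finset.sum_le_sum h1
    _ = ∑ x ∈ S, (9 * √R) * (f x ^ 2 / √((T.filter (fun w => E x w)).card : ℝ)) *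
        ∑ z ∈ T.filter (fun z => E x z), √((S.filter (fun x' => E x' z)).card : ℝ) := by
        simp_rw [Finset.mul_sum, Finset.sum_filter]
        rw [Finset.sum_comm]
        refine Finset.sum_congr rfl fun x _ => Finset.sum_congr rfl fun z _ => ?_
        split_ifs
        · ring
        · rfl
    _ ≤ ∑ x ∈ S, (81 * R) * f x ^ 2 := by
        apply Finset.sum_le_sum
        intro x hx
        have h3 := hrow x hx
        rcases Nat.eq_zero_or_pos (T.filter (fun w => E x w)).card with h0 | h0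
        · rw [h0, Nat.cast_zero, Real.sqrt_zero, div_zero, mul_zero, zero_mul]
          positivity
        · have hpos : 0 < √((T.filter (fun w => E x w)).card : ℝ) :=
            Real.sqrt_pos.2 (by exact_mod_cast h0)
          calc _ ≤ (9 * √R) * (f x ^ 2 / √((T.filter (fun w => E x w)).card : ℝ)) *
                (9 * √R * √((T.filter (fun z => E x z)).card : ℝ)) :=
                mul_le_mul_of_nonneg_left h3 (by positivity)
            _ = 81 * (√R * √R) * f x ^ 2 := by field_simp; ring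
            _ = 81 * R * f x ^ 2 := by rw [Real.mul_self_sqrt (by linarith)]
    _ = _ := by rw [Finset.mul_sum]

/-! ### Part 2 -/

/-- Splitting a sum over a finset of vectors by the first coordinate. -/
theorem sum_split {n : ℕ} (X : Finset (Fin (n + 1) → ℤ)) (S : Finset ℤ) (Y : Finset (Fin n → ℤ))
    (hS : ∀ x ∈ X, x 0 ∈ S) (hY : ∀ x ∈ X, Fin.tail x ∈ Y) (F : (Fin (n + 1) → ℤ) → ℝ) :
    ∑ x ∈ X, F x = ∑ s ∈ S, ∑ y ∈ Y.filter (fun y => (Fin.cons s y : Fin (n + 1) → ℤ) ∈ X),
      F (Fin.cons s y) := by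
  simp_rw [Finset.sum_filter]
  rw [← Finset.sum_product' S Y
    (fun s y => if (Fin.cons s y : Fin (n + 1) → ℤ) ∈ X then F (Fin.cons s y) else 0),
    ← Finset.sum_filter]
  refine Finset.sum_nbij' (fun x => (x 0, Fin.tail x)) (fun p => Fin.cons p.1 p.2) ?_ ?_ ?_ ?_ ?_
  · intro x hx
    simp only [Finset.mem_filter, Finset.mem_product]
    exact ⟨⟨hS x hx, hY x hx⟩, by simpa using hx⟩
  · intro p hp
    exact (Finset.mem_filter.1 hp).2
  · intro x _; simp
  · intro p _; simp
  · intro x _; simp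

/-- The higher-dimensional bound. -/
theorem nD (h c R : ℝ) (hh : 0 < h) (hR : 1 ≤ R) (hcR : 2 * c ≤ h * R) (n : ℕ) :
    ∀ (X Ξ : Finset (Fin n → ℤ)) (a b : (Fin n → ℤ) → ℝ) (f : (Fin n → ℤ) → ℝ),
    (∀ x, 0 ≤ f x) →
    (∀ x ∈ X, ∀ x' ∈ X, ∀ i, (x' i : ℝ) - x i ≤ R) →
    (∀ x ∈ Ξ, ∀ x' ∈ Ξ, ∀ i, (x' i : ℝ) - x i ≤ R) →
    (∀ x ∈ X, ∀ ξ ∈ Ξ, h * ∑ i, (x i : ℝ) * ξ i ≤ a x + b ξ) →
    ∑ ξ ∈ Ξ, (∑ x ∈ X.filter (fun x => a x + b ξ - h * ∑ i, (x i : ℝ) * ξ i ≤ c), f x) ^ 2 ≤
      (81 * R) ^ n * ∑ x ∈ X, f x ^ 2 := by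
  induction n with
  | zero =>
    intro X Ξ a b f hf _ _ _
    rw [pow_zero, one_mul]
    have hX : X ⊆ {0} := fun x _ => by rw [Finset.mem_singleton]; exact Subsingleton.elim _ _
    have hΞ : Ξ ⊆ {0} := fun x _ => by rw [Finset.mem_singleton]; exact Subsingleton.elim _ _
    calc _ ≤ ∑ ξ ∈ ({0} : Finset (Fin 0 → ℤ)),
          (∑ x ∈ X.filter (fun x => a x + b ξ - h * ∑ i, (x i : ℝ) * ξ i ≤ c), f x) ^ 2 :=
          Finset.sum_le_sum_of_subset_of_nonneg hΞ fun _ _ _ => by positivity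
      _ = (∑ x ∈ X.filter (fun x => a x + b 0 - h * ∑ i, (x i : ℝ) * (0 : Fin 0 → ℤ) i ≤ c),
          f x) ^ 2 := by rw [Finset.sum_singleton]
      _ ≤ (∑ x ∈ X, f x) ^ 2 := by
          apply pow_le_pow_left₀ (Finset.sum_nonneg fun _ _ => hf _)
          exact Finset.sum_le_sum_of_subset_of_nonneg (Finset.filter_subset _ _)
            fun _ _ _ => hf _
      _ ≤ ∑ x ∈ X, f x ^ 2 := by
          rcases Finset.subset_singleton_iff.1 hX with h | h
          · rw [h]; simp
          · rw [h, Finset.sum_singleton, Finset.sum_singleton]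
  | succ n ih =>
    intro X Ξ a b f hf hX hΞ hab
    classical
    set S := X.image (fun x => x 0) with hS
    set X' := X.image (fun x => (Fin.tail x : Fin n → ℤ)) with hX'
    set T := Ξ.image (fun x => x 0) with hT
    set Ξ' := Ξ.image (fun x => (Fin.tail x : Fin n → ℤ)) with hΞ'
    have hSm : ∀ x ∈ X, x 0 ∈ S := fun x hx => Finset.mem_image_of_mem _ hx
    have hXm : ∀ x ∈ X, (Fin.tail x : Fin n → ℤ) ∈ X' := fun x hx => Finset.mem_image_of_mem _ hx
    have hTm : ∀ x ∈ Ξ, x 0 ∈ T := fun x hx => Finset.mem_image_of_mem _ hx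
    have hΞm : ∀ x ∈ Ξ, (Fin.tail x : Fin n → ℤ) ∈ Ξ' := fun x hx => Finset.mem_image_of_mem _ hx
    -- fibres of `Ξ`
    let Φ : (Fin n → ℤ) → Finset ℤ := fun η => T.filter (fun t => (Fin.cons t η : Fin (n + 1) → ℤ) ∈ Ξ)
    have hΦ : ∀ η ∈ Ξ', (Φ η).Nonempty := by
      intro η hη
      rw [hΞ', Finset.mem_image] at hη
      obtain ⟨ξ, hξ, rfl⟩ := hη
      refine ⟨ξ 0, ?_⟩
      simp only [Φ, Finset.mem_filter]
      exact ⟨hTm ξ hξ, by simpa using hξ⟩
    -- partial Legendre transform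
    have hB : ∀ (s : ℤ) (η : Fin n → ℤ), ∃ B : ℝ, η ∈ Ξ' →
        (∀ t ∈ Φ η, h * (s * t) - b (Fin.cons t η) ≤ B) ∧
        ∃ t ∈ Φ η, B = h * (s * t) - b (Fin.cons t η) := by
      intro s η
      by_cases hη : η ∈ Ξ'
      · obtain ⟨t, ht, hmax⟩ := Finset.exists_max_image (Φ η)
          (fun t : ℤ => h * ((s : ℝ) * t) - b (Fin.cons t η)) (hΦ η hη)
        exact ⟨h * (s * t) - b (Fin.cons t η), fun _ => ⟨fun t' ht' => hmax t' ht', t, ht, rfl⟩⟩
      · exact ⟨0, fun h => absurd h hη⟩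
    choose B hB using hB
    -- the inner sums
    let g : (Fin n → ℤ) → ℤ → ℝ := fun η s =>
      ∑ y ∈ (X'.filter (fun y => (Fin.cons s y : Fin (n + 1) → ℤ) ∈ X)).filter
        (fun y => a (Fin.cons s y) + (-B s η) - h * ∑ i, (y i : ℝ) * η i ≤ c), f (Fin.cons s y)
    have hg : ∀ η s, 0 ≤ g η s := fun η s => Finset.sum_nonneg fun _ _ => hf _
    have hdot : ∀ (s t : ℤ) (y η : Fin n → ℤ),
        ∑ i, ((Fin.cons s y : Fin (n + 1) → ℤ) i : ℝ) * ((Fin.cons t η : Fin (n + 1) → ℤ) i : ℝ) =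
        s * t + ∑ i, (y i : ℝ) * η i := by
      intro s t y η
      rw [Fin.sum_univ_succ]
      simp
    have hmemX : ∀ s y, (Fin.cons s y : Fin (n + 1) → ℤ) ∈ X → s ∈ S := by
      intro s y hsy
      have := hSm _ hsy
      simpa using this
    -- second factor is nonnegative
    have hD2 : ∀ (s : ℤ) (y η : Fin n → ℤ), (Fin.cons s y : Fin (n + 1) → ℤ) ∈ X → η ∈ Ξ' →
        h * ∑ i, (y i : ℝ) * η i ≤ a (Fin.cons s y) + (-B s η) := by
      intro s y η hsy hη
      obtain ⟨t, ht, hBt⟩ := (hB s η hη).2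
      have htΞ : (Fin.cons t η : Fin (n + 1) → ℤ) ∈ Ξ := (Finset.mem_filter.1 ht).2
      have h1 := hab _ hsy _ htΞ
      rw [hdot] at h1
      rw [hBt]
      linarith
    -- the pointwise bound for each frequency
    have hpt : ∀ η ∈ Ξ', ∀ t ∈ Φ η,
        (∑ x ∈ X.filter (fun x => a x + b (Fin.cons t η) -
          h * ∑ i, (x i : ℝ) * (Fin.cons t η : Fin (n + 1) → ℤ) i ≤ c), f x) ^ 2 ≤
        (∑ s ∈ S.filter (fun s => b (Fin.cons t η) + B s η - h * ((s : ℝ) * t) ≤ c), g η s) ^ 2 := by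
      intro η hη t ht
      apply pow_le_pow_left₀ (Finset.sum_nonneg fun _ _ => hf _)
      rw [sum_split _ S X' (fun x hx => hSm x (Finset.mem_filter.1 hx).1)
        (fun x hx => hXm x (Finset.mem_filter.1 hx).1)]
      rw [Finset.sum_filter (s := S)]
      apply Finset.sum_le_sum
      intro s hs
      split_ifs with hcond
      · apply Finset.sum_le_sum_of_subset_of_nonneg _ fun _ _ _ => hf _
        intro y hy
        simp only [Finset.mem_filter] at hy ⊢
        refine ⟨⟨hy.1, hy.2.1⟩, ?_⟩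
        have h1 := hy.2.2
        rw [hdot] at h1
        have h2 := (hB s η hη).1 t ht
        linarith
      · apply le_of_eq
        apply Finset.sum_eq_zero
        intro y hy
        exfalso
        apply hcond
        simp only [Finset.mem_filter] at hy
        have h1 := hy.2.2
        rw [hdot] at h1
        have h2 := hD2 s y η hy.2.1 hη
        linarith
    have hΞsum : ∀ F : (Fin (n + 1) → ℤ) → ℝ, ∑ ξ ∈ Ξ, F ξ =
        ∑ η ∈ Ξ', ∑ t ∈ Φ η, F (Fin.cons t η) := by
      intro F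
      rw [sum_split Ξ T Ξ' hTm hΞm]
      simp_rw [Finset.sum_filter]
      rw [Finset.sum_comm]
      refine Finset.sum_congr rfl fun η _ => ?_
      simp only [Φ]
      rw [Finset.sum_filter]
    calc _ = ∑ η ∈ Ξ', ∑ t ∈ Φ η, (∑ x ∈ X.filter (fun x => a x + b (Fin.cons t η) -
          h * ∑ i, (x i : ℝ) * (Fin.cons t η : Fin (n + 1) → ℤ) i ≤ c), f x) ^ 2 := hΞsum _
      _ ≤ ∑ η ∈ Ξ', ∑ t ∈ Φ η,
          (∑ s ∈ S.filter (fun s => b (Fin.cons t η) + B s η - h * ((s : ℝ) * t) ≤ c),
            g η s) ^ 2 :=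
          Finset.sum_le_sum fun η hη => Finset.sum_le_sum fun t ht => hpt η hη t ht
      _ ≤ ∑ η ∈ Ξ', 81 * R * ∑ s ∈ S, g η s ^ 2 := by
          apply Finset.sum_le_sum
          intro η hη
          apply oneD S (Φ η) (fun s t => b (Fin.cons t η) + B s η - h * ((s : ℝ) * t) ≤ c) R hR
          · intro s hs s' hs' t ht t' ht' h1 h2 _ _
            have h3 := (hB s η hη).1 t ht
            have h4 := (hB s' η hη).1 t' ht'
            have h5 : h * (((s' : ℝ) - s) * (t' - t)) ≤ 2 * c := by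
              have : h * (((s' : ℝ) - s) * (t' - t)) = h * (s' * t') + h * (s * t) - h * (s * t') -
                h * (s' * t) := by ring
              rw [this]; linarith
            exact le_of_mul_le_mul_left (h5.trans hcR) hh
          · intro s hs s' hs'
            rw [hS, Finset.mem_image] at hs hs'
            obtain ⟨x, hx, rfl⟩ := hs
            obtain ⟨x', hx', rfl⟩ := hs'
            exact hX x hx x' hx' 0
          · intro t ht t' ht'
            have h1 := (Finset.mem_filter.1 ht).2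
            have h2 := (Finset.mem_filter.1 ht').2
            have h3 := hΞ _ h1 _ h2 0
            simpa using h3
      _ = 81 * R * ∑ s ∈ S, ∑ η ∈ Ξ', g η s ^ 2 := by
          rw [← Finset.mul_sum, Finset.sum_comm]
      _ ≤ 81 * R * ∑ s ∈ S, (81 * R) ^ n *
          ∑ y ∈ X'.filter (fun y => (Fin.cons s y : Fin (n + 1) → ℤ) ∈ X), f (Fin.cons s y) ^ 2 := by
          apply mul_le_mul_of_nonneg_left _ (by positivity)
          apply Finset.sum_le_sum
          intro s hs
          apply ih (X'.filter (fun y => (Fin.cons s y : Fin (n + 1) → ℤ) ∈ X)) Ξ'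
            (fun y => a (Fin.cons s y)) (fun η => -B s η) (fun y => f (Fin.cons s y))
          · intro y; exact hf _
          · intro y hy y' hy' i
            have := hX _ (Finset.mem_filter.1 hy).2 _ (Finset.mem_filter.1 hy').2 i.succ
            simpa using this
          · intro y hy y' hy' i
            rw [hΞ', Finset.mem_image] at hy hy'
            obtain ⟨x, hx, rfl⟩ := hy
            obtain ⟨x', hx', rfl⟩ := hy'
            exact hΞ x hx x' hx' i.succ
          · intro y hy η hη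
            exact hD2 s y η (Finset.mem_filter.1 hy).2 hη
      _ = (81 * R) ^ (n + 1) * ∑ x ∈ X, f x ^ 2 := by
          rw [sum_split X S X' hSm hXm, ← Finset.mul_sum, pow_succ]
          ring

end Pool.Agent.V11168.NA
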