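import Mathlib
import Pool.Agent.V11168.NA

/-!
# Neighbouring versus antipodal pairs, part 3: the caps
-/

set_option autoImplicit false

namespace Pool.Agent.V11168.NA

open Finset
open scoped InnerProductSpace

/-- the cell of side `ε` containing `x` -/
noncomputable def cell {d : ℕ} (ε : ℝ) (x : EuclideanSpace ℝ (Fin d)) : Fin d → ℤ :=
  fun i => ⌊x i / ε⌋

/-- the number of ordered pairs in `X` on which `φ` agrees -/
noncomputable def Q {E α : Type*} [DecidableEq α] (X : Finset E) (φ : E → α) : ℕ :=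
  ((X ×ˢ X).filter fun p => φ p.1 = φ p.2).card

theorem Q_eq {E α : Type*} [DecidableEq α] (X : Finset E) (φ : E → α) (t : Finset α)
    (ht : ∀ x ∈ X, φ x ∈ t) :
    (Q X φ : ℝ) = ∑ m ∈ t, ((X.filter fun x => φ x = m).card : ℝ) ^ 2 := by
  unfold Q
  rw [Finset.card_eq_sum_card_fiberwise (f := fun p : E × E => φ p.1) (t := t)
    (fun p hp => ht p.1 (Finset.mem_product.1 (Finset.mem_filter.1 hp).1).1)]
  push_cast
  refine Finset.sum_congr rfl fun m _ => ?_
  have : ((X ×ˢ X).filter fun p => φ p.1 = φ p.2).filter (fun p : E × E => φ p.1 = m) =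
      (X.filter fun x => φ x = m) ×ˢ (X.filter fun x => φ x = m) := by
    ext p
    simp only [Finset.mem_filter, Finset.mem_product]
    constructor
    · rintro ⟨⟨⟨h1, h2⟩, h3⟩, h4⟩
      exact ⟨⟨h1, h4⟩, h2, by rw [← h3]; exact h4⟩
    · rintro ⟨⟨h1, h4⟩, h2, h5⟩
      exact ⟨⟨⟨h1, h2⟩, by rw [h4, h5]⟩, h4⟩
  rw [this, Finset.card_product]
  push_cast
  ring

/-- Cauchy–Schwarz for the number of agreeing pairs. -/
theorem Q_refine {E α β : Type*} [DecidableEq α] [DecidableEq β] (X : Finset E) (φ : E → α)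
    (ψ : E → β) (t : Finset β) (ht : ∀ x ∈ X, ψ x ∈ t) :
    (Q X φ : ℝ) ≤ t.card * (Q X (fun x => (φ x, ψ x)) : ℝ) := by
  rw [Q_eq X φ (X.image φ) (fun x hx => Finset.mem_image_of_mem _ hx),
    Q_eq X (fun x => (φ x, ψ x)) (X.image φ ×ˢ t)
      (fun x hx => Finset.mem_product.2 ⟨Finset.mem_image_of_mem _ hx, ht x hx⟩),
    Finset.sum_product, Finset.mul_sum]
  apply Finset.sum_le_sum
  intro m _
  have h1 : ((X.filter fun x => φ x = m).card : ℝ) =
      ∑ k ∈ t, ((X.filter fun x => (φ x, ψ x) = (m, k)).card : ℝ) := by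
    rw [Finset.card_eq_sum_card_fiberwise (f := ψ) (t := t)
      (fun x hx => ht x (Finset.mem_filter.1 hx).1)]
    push_cast
    refine Finset.sum_congr rfl fun k _ => ?_
    rw [Finset.filter_filter]
    simp only [Prod.mk.injEq]
  rw [h1]
  exact sq_sum_le_card_mul_sum_sq

section Caps

variable {d : ℕ}

/-- integer vectors as points of Euclidean space -/
noncomputable def vec (ξ : Fin d → ℤ) : EuclideanSpace ℝ (Fin d) := WithLp.toLp 2 fun i => (ξ i : ℝ)

theorem vec_inner (ξ : Fin d → ℤ) (x : EuclideanSpace ℝ (Fin d)) :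
    ⟪vec ξ, x⟫_ℝ = ∑ i, (ξ i : ℝ) * x i := by
  rw [PiLp.inner_apply]
  refine Finset.sum_congr rfl fun i _ => ?_
  simp [vec, mul_comm]

/-- the cap of `X` in direction `ξ` -/
noncomputable def cap (X : Finset (EuclideanSpace ℝ (Fin d))) (ξ : Fin d → ℤ) :
    Finset (EuclideanSpace ℝ (Fin d)) := by
  classical
  exact X.filter fun x => ∀ z ∈ X, ⟪vec ξ, z⟫_ℝ - ⟪vec ξ, x⟫_ℝ ≤ 3 / 2

theorem coord_le (x : EuclideanSpace ℝ (Fin d)) (i : Fin d) : |x i| ≤ ‖x‖ := by
  have := PiLp.norm_apply_le (p := 2) x i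
  simpa using this

/-- The main bound: sum of squares of cap sizes. -/
theorem caps (X : Finset (EuclideanSpace ℝ (Fin d))) (hX : ∀ x ∈ X, ∀ y ∈ X, dist x y ≤ 1)
    (ε : ℝ) (hε : 0 < ε) (hε1 : ε ≤ 1) (Ξ : Finset (Fin d → ℤ)) (hΞ : ∀ ξ ∈ Ξ, ‖vec ξ‖ ≤ 1 / ε) :
    ∑ ξ ∈ Ξ, ((cap X ξ).card : ℝ) ^ 2 ≤ (81 * ((5 + 2 * √(d : ℝ)) / ε)) ^ d * Q X (cell ε) := by
  classical
  rcases X.eq_empty_or_nonempty with h | ⟨x0, hx0⟩
  · subst h; simp [cap, Q]
  have hsd : 0 ≤ √(d : ℝ) := Real.sqrt_nonneg _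
  have hie : 1 ≤ 1 / ε := by rw [le_div_iff₀ hε]; linarith
  set M := X.image (cell ε) with hM
  have hMne : M.Nonempty := ⟨cell ε x0, Finset.mem_image_of_mem _ hx0⟩
  have hb : ∀ ξ : Fin d → ℤ, ∃ B : ℝ, (∀ m ∈ M, ε * ∑ i, (m i : ℝ) * ξ i ≤ B) ∧
      ∃ m ∈ M, B = ε * ∑ i, (m i : ℝ) * ξ i := by
    intro ξ
    obtain ⟨m, hm, hmax⟩ := Finset.exists_max_image M (fun m => ε * ∑ i, (m i : ℝ) * ξ i) hMne
    exact ⟨_, hmax, m, hm, rfl⟩
  choose b hb1 hb2 using hb
  set F : (Fin d → ℤ) → ℝ := fun m => ((X.filter fun x => cell ε x = m).card : ℝ) with hF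
  have hmain := nD ε (3 / 2 + √(d : ℝ)) ((5 + 2 * √(d : ℝ)) / ε) hε
    (by rw [le_div_iff₀ hε]; linarith) (by rw [mul_div_cancel₀ _ hε.ne']; linarith) d M Ξ
    (fun _ => 0) b F (fun _ => Nat.cast_nonneg _) ?_ ?_ ?_
  · rw [Q_eq X (cell ε) M (fun x hx => Finset.mem_image_of_mem _ hx)]
    refine le_trans ?_ hmain
    apply Finset.sum_le_sum
    intro ξ hξ
    apply pow_le_pow_left₀ (Nat.cast_nonneg _)
    rw [Finset.card_eq_sum_card_fiberwise (s := cap X ξ) (f := cell ε)
      (t := M.filter (fun m => (0 : ℝ) + b ξ - ε * ∑ i, (m i : ℝ) * ξ i ≤ 3 / 2 + √(d : ℝ)))]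
    · push_cast
      apply Finset.sum_le_sum
      intro m _
      simp only [hF]
      have : ((cap X ξ).filter fun x => cell ε x = m) ⊆ X.filter fun x => cell ε x = m := by
        intro x hx
        rw [Finset.mem_filter] at hx ⊢
        exact ⟨(Finset.mem_filter.1 hx.1).1, hx.2⟩
      exact_mod_cast Finset.card_le_card this
    · intro x hx
      have hx' := Finset.mem_filter.1 hx
      simp only [Finset.coe_filter, Set.mem_ofPred_eq]
      refine ⟨Finset.mem_image_of_mem _ hx'.1, ?_⟩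
      obtain ⟨m, hm, hbm⟩ := hb2 ξ
      rw [hM, Finset.mem_image] at hm
      obtain ⟨z, hz, rfl⟩ := hm
      -- remainders
      have hrem : ∀ y : EuclideanSpace ℝ (Fin d), ∀ i, 0 ≤ y i - ε * (cell ε y i : ℝ) ∧
          y i - ε * (cell ε y i : ℝ) < ε := by
        intro y i
        have h1 := Int.floor_le (y i / ε)
        have h2 := Int.lt_floor_add_one (y i / ε)
        rw [le_div_iff₀ hε] at h1
        rw [div_lt_iff₀ hε] at h2
        unfold cell
        constructor <;> linarith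
      set r : EuclideanSpace ℝ (Fin d) := WithLp.toLp 2 fun i =>
        (x i - ε * (cell ε x i : ℝ)) - (z i - ε * (cell ε z i : ℝ)) with hr
      have hrn : ‖r‖ ≤ √(d : ℝ) * ε := by
        rw [EuclideanSpace.norm_eq]
        calc √(∑ i, ‖r i‖ ^ 2) ≤ √(∑ _i : Fin d, ε ^ 2) := by
              apply Real.sqrt_le_sqrt
              apply Finset.sum_le_sum
              intro i _
              rw [Real.norm_eq_abs, sq_abs]
              apply sq_le_sq'
              · have := (hrem x i).1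
                have := (hrem z i).2
                simp only [hr]
                linarith
              · have := (hrem x i).2
                have := (hrem z i).1
                simp only [hr]
                linarith
          _ = √(d : ℝ) * ε := by
              rw [Finset.sum_const, Finset.card_univ, Fintype.card_fin, nsmul_eq_mul,
                Real.sqrt_mul (by positivity), Real.sqrt_sq hε.le]
      have h1 : ⟪vec ξ, z⟫_ℝ - ⟪vec ξ, x⟫_ℝ ≤ 3 / 2 := hx'.2 z hz
      have h2 : ⟪vec ξ, r⟫_ℝ ≤ √(d : ℝ) := by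
        calc ⟪vec ξ, r⟫_ℝ ≤ ‖vec ξ‖ * ‖r‖ := real_inner_le_norm _ _
          _ ≤ (1 / ε) * (√(d : ℝ) * ε) := mul_le_mul (hΞ ξ hξ) hrn (norm_nonneg _) (by positivity)
          _ = √(d : ℝ) := by field_simp
      have h3 : b ξ - ε * ∑ i, (cell ε x i : ℝ) * ξ i =
          (⟪vec ξ, z⟫_ℝ - ⟪vec ξ, x⟫_ℝ) + ⟪vec ξ, r⟫_ℝ := by
        rw [hbm, vec_inner, vec_inner, vec_inner, Finset.mul_sum, Finset.mul_sum,
          ← Finset.sum_sub_distrib, ← Finset.sum_sub_distrib, ← Finset.sum_add_distrib]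
        refine Finset.sum_congr rfl fun i _ => ?_
        simp only [hr]
        ring
      rw [zero_add, h3]
      linarith
  · -- range of the cells
    intro m hm m' hm' i
    rw [hM, Finset.mem_image] at hm hm'
    obtain ⟨x, hx, rfl⟩ := hm
    obtain ⟨y, hy, rfl⟩ := hm'
    have h1 := Int.floor_le (y i / ε)
    have h2 := Int.lt_floor_add_one (x i / ε)
    have h3 : y i - x i ≤ 1 := by
      have h4 := coord_le (y - x) i
      have h5 := hX y hy x hx
      rw [dist_eq_norm] at h5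
      exact (le_abs_self _).trans (h4.trans h5)
    have h4 : y i / ε - x i / ε ≤ 1 / ε := by
      rw [← sub_div]; exact div_le_div_of_nonneg_right h3 hε.le
    have h5 : (5 + 2 * √(d : ℝ)) / ε = 5 * (1 / ε) + 2 * √(d : ℝ) * (1 / ε) := by ring
    have h6 : 0 ≤ 2 * √(d : ℝ) * (1 / ε) := by positivity
    simp only [cell]
    rw [h5]
    linarith
  · intro ξ hξ ξ' hξ' i
    have h1 := coord_le (vec ξ) i
    have h2 := coord_le (vec ξ') i
    have h3 := hΞ ξ hξ
    have h4 := hΞ ξ' hξ'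
    have h5 : (5 + 2 * √(d : ℝ)) / ε = 5 * (1 / ε) + 2 * √(d : ℝ) * (1 / ε) := by ring
    have h6 : 0 ≤ 2 * √(d : ℝ) * (1 / ε) := by positivity
    have h7 : (ξ' i : ℝ) ≤ |(vec ξ') i| := le_abs_self _
    have h8 : -(ξ i : ℝ) ≤ |(vec ξ) i| := neg_le_abs _
    rw [h5]
    linarith
  · intro m hm ξ _
    have := hb1 ξ m hm
    linarith

end Caps

end Pool.Agent.V11168.NA
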