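import Mathlib
import Pool.Agent.V11168.NA2

/-!
# Neighbouring versus antipodal pairs, part 4: many frequencies for each antipodal pair
-/

set_option autoImplicit false

namespace Pool.Agent.V11168.NA

open Finset
open scoped InnerProductSpace

theorem floor_half (x : ℝ) (hx : 1 ≤ x) : x / 2 ≤ (⌊x⌋₊ : ℝ) := by
  rcases le_or_gt 2 x with h | h
  · have := Nat.lt_floor_add_one x
    linarith
  · have : 1 ≤ ⌊x⌋₊ := Nat.le_floor (by simpa using hx)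
    have h1 : (1 : ℝ) ≤ ⌊x⌋₊ := by exact_mod_cast this
    linarith

theorem vec_bound {d : ℕ} (v η : EuclideanSpace ℝ (Fin d)) (μ ε : ℝ) (hε : 0 < ε)
    (hμ : 0 < μ) (h1 : 1 - ε ≤ ‖v‖) (h2 : ‖v‖ ≤ 1) (hv : 0 < ‖v‖)
    (hp1 : ‖η‖ ^ 2 ≤ μ * ‖v‖ / 2) (hp2 : μ * ‖v‖ ≤ 1 / (4 * ε)) (hη : ‖η‖ ≤ 1 / (4 * ε)) :
    ‖μ • v + η‖ ≤ 1 / ε ∧ ‖μ • v + η‖ - ⟪μ • v + η, v⟫_ℝ ≤ 3 / 2 := by
  set p := μ * ‖v‖ with hp
  have hp0 : 0 < p := by positivity
  have hn : ‖μ • v‖ = p := by rw [norm_smul, Real.norm_of_nonneg hμ.le]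
  constructor
  · calc ‖μ • v + η‖ ≤ ‖μ • v‖ + ‖η‖ := norm_add_le _ _
      _ ≤ 1 / (4 * ε) + 1 / (4 * ε) := by rw [hn]; exact add_le_add hp2 hη
      _ ≤ 1 / ε := by
        rw [← add_div, div_le_div_iff₀ (by positivity) hε]; linarith
  · have hsq : ‖μ • v + η‖ ^ 2 = p ^ 2 + 2 * (μ * ⟪v, η⟫_ℝ) + ‖η‖ ^ 2 := by
      rw [norm_add_sq_real, hn, real_inner_smul_left]
    have ham : 2 * p * ‖μ • v + η‖ ≤ p ^ 2 + ‖μ • v + η‖ ^ 2 := by
      nlinarith [sq_nonneg (p - ‖μ • v + η‖)]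
    have hin : ⟪μ • v + η, v⟫_ℝ = p * ‖v‖ + ⟪v, η⟫_ℝ := by
      rw [inner_add_left, real_inner_smul_left, real_inner_self_eq_norm_sq, real_inner_comm, hp]
      ring
    have hcs : |⟪v, η⟫_ℝ| ≤ ‖v‖ * ‖η‖ := abs_real_inner_le_norm _ _
    -- `2 p (‖ξ‖ - ⟪ξ, v⟫) ≤ 3 p`
    have hkey : 2 * p * (‖μ • v + η‖ - ⟪μ • v + η, v⟫_ℝ) ≤ 2 * p * (3 / 2) := by
      rw [hin]
      have e1 : 2 * p * (‖μ • v + η‖ - (p * ‖v‖ + ⟪v, η⟫_ℝ)) ≤
          2 * p ^ 2 * (1 - ‖v‖) + 2 * μ * (⟪v, η⟫_ℝ * (1 - ‖v‖)) + ‖η‖ ^ 2 := by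
        rw [hsq] at ham
        have : 2 * p * ⟪v, η⟫_ℝ = 2 * μ * (⟪v, η⟫_ℝ * ‖v‖) := by rw [hp]; ring
        nlinarith
      have hδ : 0 ≤ 1 - ‖v‖ := by linarith
      have hδ' : 1 - ‖v‖ ≤ ε := by linarith
      have e2 : 2 * p ^ 2 * (1 - ‖v‖) ≤ p / 2 := by
        have h3 : p * (1 - ‖v‖) ≤ 1 / (4 * ε) * ε := mul_le_mul hp2 hδ' hδ (by positivity)
        have h4 : 1 / (4 * ε) * ε = 1 / 4 := by field_simp
        rw [h4] at h3
        nlinarith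
      have e3 : 2 * μ * (⟪v, η⟫_ℝ * (1 - ‖v‖)) ≤ p / 2 := by
        have h3 : ⟪v, η⟫_ℝ * (1 - ‖v‖) ≤ (‖v‖ * ‖η‖) * ε := by
          calc ⟪v, η⟫_ℝ * (1 - ‖v‖) ≤ (‖v‖ * ‖η‖) * (1 - ‖v‖) :=
                mul_le_mul_of_nonneg_right ((le_abs_self _).trans hcs) hδ
            _ ≤ _ := mul_le_mul_of_nonneg_left hδ' (by positivity)
        have h4 : ‖η‖ * ε ≤ 1 / 4 := by
          calc ‖η‖ * ε ≤ 1 / (4 * ε) * ε := mul_le_mul_of_nonneg_right hη hε.le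
            _ = 1 / 4 := by field_simp
        calc 2 * μ * (⟪v, η⟫_ℝ * (1 - ‖v‖)) ≤ 2 * μ * ((‖v‖ * ‖η‖) * ε) :=
              mul_le_mul_of_nonneg_left h3 (by positivity)
          _ = 2 * p * (‖η‖ * ε) := by rw [hp]; ring
          _ ≤ 2 * p * (1 / 4) := mul_le_mul_of_nonneg_left h4 (by positivity)
          _ = p / 2 := by ring
      linarith
    exact le_of_mul_le_mul_left hkey (by positivity)

theorem many (d : ℕ) (hd : 1 ≤ d) (ε : ℝ) (hε : 0 < ε) (hε1 : ε ≤ 1 / (64 * (d : ℝ) ^ 2))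
    (v : EuclideanSpace ℝ (Fin d)) (h1 : 1 - ε ≤ ‖v‖) (h2 : ‖v‖ ≤ 1) :
    ∃ G : Finset (Fin d → ℤ), (∀ ξ ∈ G, ‖vec ξ‖ ≤ 1 / ε ∧ ‖vec ξ‖ - ⟪vec ξ, v⟫_ℝ ≤ 3 / 2) ∧
      (1 / (16 * d * ε)) * (1 / (4 * d * √ε)) ^ (d - 1) ≤ (G.card : ℝ) := by
  classical
  have hd' : (1 : ℝ) ≤ d := by exact_mod_cast hd
  have hd2 : (d : ℝ) ≤ (d : ℝ) ^ 2 := by nlinarith
  have hεd : ε * (64 * (d : ℝ) ^ 2) ≤ 1 := by rwa [le_div_iff₀ (by positivity)] at hε1
  have hεle : ε ≤ 1 / 64 := by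
    rw [le_div_iff₀ (by norm_num)]
    nlinarith
  have hv : 0 < ‖v‖ := by linarith
  have : Nonempty (Fin d) := ⟨⟨0, hd⟩⟩
  obtain ⟨i0, -, hi0⟩ := Finset.exists_max_image (Finset.univ : Finset (Fin d))
    (fun i => |v i|) Finset.univ_nonempty
  have hnv : ‖v‖ ^ 2 ≤ d * |v i0| ^ 2 := by
    rw [EuclideanSpace.norm_sq_eq]
    calc ∑ i, ‖v i‖ ^ 2 ≤ ∑ _i : Fin d, |v i0| ^ 2 :=
          Finset.sum_le_sum fun i _ => pow_le_pow_left₀ (norm_nonneg _) (hi0 i (Finset.mem_univ _)) 2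
      _ = d * |v i0| ^ 2 := by simp
  have hnv' : ‖v‖ ≤ d * |v i0| := by
    apply le_of_sq_le_sq _ (by positivity)
    calc ‖v‖ ^ 2 ≤ d * |v i0| ^ 2 := hnv
      _ ≤ (d : ℝ) ^ 2 * |v i0| ^ 2 := mul_le_mul_of_nonneg_right hd2 (by positivity)
      _ = (d * |v i0|) ^ 2 := by ring
  have hvi0 : 0 < |v i0| := by
    rcases (abs_nonneg (v i0)).eq_or_lt with h | h
    · rw [← h, mul_zero] at hnv'; linarith
    · exact h
  have hvi1 : |v i0| ≤ ‖v‖ := coord_le v i0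
  obtain ⟨σ, hσ, hσv⟩ : ∃ σ : ℤ, (σ = 1 ∨ σ = -1) ∧ (σ : ℝ) * |v i0| = v i0 := by
    rcases le_total 0 (v i0) with h | h
    · exact ⟨1, Or.inl rfl, by rw [abs_of_nonneg h]; simp⟩
    · exact ⟨-1, Or.inr rfl, by rw [abs_of_nonpos h]; simp⟩
  have hsq : 0 < √ε := Real.sqrt_pos.2 hε
  have hsq2 : √ε ^ 2 = ε := Real.sq_sqrt hε.le
  set a : ℝ := 1 / (8 * d * ε) with ha
  set β : ℝ := 1 / (4 * d * √ε) with hβ
  have ha1 : 1 ≤ a := by
    rw [ha, le_div_iff₀ (by positivity)]; nlinarith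
  have hβ0 : 0 < β := by positivity
  have hβ2 : β ^ 2 = 1 / (16 * (d : ℝ) ^ 2 * ε) := by
    rw [hβ, div_pow, mul_pow, mul_pow, hsq2]; norm_num
  have hβ1 : 1 ≤ 2 * β := by
    have : 1 ≤ (2 * β) ^ 2 := by
      rw [mul_pow, hβ2, ← mul_div_assoc, mul_one, le_div_iff₀ (by positivity)]
      nlinarith
    nlinarith
  set K1 := ⌊a⌋₊ with hK1
  set K2 := ⌊2 * β⌋₊ with hK2
  have hK1a : (K1 : ℝ) ≤ a := Nat.floor_le (by linarith)
  have hK2a : (K2 : ℝ) ≤ 2 * β := Nat.floor_le (by linarith)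
  -- the family
  let s : Fin K1 → ℤ := fun j => ⌈a⌉ + (j : ℕ)
  let μ : Fin K1 → ℝ := fun j => (s j : ℝ) / |v i0|
  let Θ : Fin K1 × ({i : Fin d // i ≠ i0} → Fin K2) → (Fin d → ℤ) := fun p i =>
    if h : i = i0 then σ * s p.1 else ⌈μ p.1 * v i - β⌉ + ((p.2 ⟨i, h⟩ : Fin K2) : ℕ)
  have hs1 : ∀ j, a ≤ (s j : ℝ) := by
    intro j
    simp only [s]
    push_cast
    have := Int.le_ceil a
    have : (0 : ℝ) ≤ ((j : ℕ) : ℝ) := Nat.cast_nonneg _
    linarith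
  have hs2 : ∀ j, (s j : ℝ) ≤ 2 * a := by
    intro j
    simp only [s]
    push_cast
    have h3 := Int.ceil_lt_add_one a
    have h4 : ((j : ℕ) : ℝ) + 1 ≤ K1 := by exact_mod_cast j.2
    linarith
  have hinj : Function.Injective Θ := by
    intro p q hpq
    have h3 := congrFun hpq i0
    simp only [Θ, dif_pos rfl] at h3
    have h4 : s p.1 = s q.1 := by
      rcases hσ with h | h <;> rw [h] at h3 <;> linarith
    have h5 : p.1 = q.1 := by
      apply Fin.ext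
      simp only [s] at h4
      have : ((p.1 : ℕ) : ℤ) = ((q.1 : ℕ) : ℤ) := by linarith
      exact_mod_cast this
    have h6 : p.2 = q.2 := by
      funext ⟨i, hi⟩
      have h7 := congrFun hpq i
      simp only [Θ, dif_neg hi, h5] at h7
      apply Fin.ext
      have : (((p.2 ⟨i, hi⟩ : Fin K2) : ℕ) : ℤ) = (((q.2 ⟨i, hi⟩ : Fin K2) : ℕ) : ℤ) := by linarith
      exact_mod_cast this
    exact Prod.ext h5 h6
  refine ⟨Finset.univ.image Θ, ?_, ?_⟩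
  · intro ξ hξ
    rw [Finset.mem_image] at hξ
    obtain ⟨⟨j, k⟩, -, rfl⟩ := hξ
    set η : EuclideanSpace ℝ (Fin d) := vec (Θ (j, k)) - μ j • v with hη
    have hμ : 0 < μ j := by
      have := hs1 j
      have : 0 < (s j : ℝ) := by linarith
      simp only [μ]; positivity
    have hηi : ∀ i, |η i| ≤ β := by
      intro i
      have hi' : η i = (Θ (j, k) i : ℝ) - μ j * v i := by
        simp only [hη]
        rfl
      rw [hi']
      by_cases h : i = i0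
      · subst h
        simp only [Θ, dif_pos rfl]
        have : ((σ * s j : ℤ) : ℝ) - μ j * v i = 0 := by
          simp only [μ]
          push_cast
          rw [← hσv]
          have := hvi0.ne'
          rw [hσv]
          field_simp
          rw [hσv]
          ring
        rw [this, abs_zero]
        exact hβ0.le
      · simp only [Θ, dif_neg h]
        push_cast
        have h3 := Int.le_ceil (μ j * v i - β)
        have h4 := Int.ceil_lt_add_one (μ j * v i - β)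
        have h5 : (((k ⟨i, h⟩ : Fin K2) : ℕ) : ℝ) + 1 ≤ K2 := by exact_mod_cast (k ⟨i, h⟩).2
        have h6 : (0 : ℝ) ≤ (((k ⟨i, h⟩ : Fin K2) : ℕ) : ℝ) := Nat.cast_nonneg _
        rw [abs_le]
        constructor <;> linarith
    have hηn : ‖η‖ ^ 2 ≤ 1 / (16 * d * ε) := by
      rw [EuclideanSpace.norm_sq_eq]
      calc ∑ i, ‖η i‖ ^ 2 ≤ ∑ _i : Fin d, β ^ 2 :=
            Finset.sum_le_sum fun i _ => pow_le_pow_left₀ (norm_nonneg _) (hηi i) 2
        _ = d * β ^ 2 := by simp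
        _ = 1 / (16 * d * ε) := by rw [hβ2]; field_simp
    have hp_lo : a ≤ μ j * ‖v‖ := by
      calc a ≤ s j := hs1 j
        _ = (s j : ℝ) / |v i0| * |v i0| := by field_simp
        _ ≤ μ j * ‖v‖ := mul_le_mul_of_nonneg_left hvi1 hμ.le
    have hp_hi : μ j * ‖v‖ ≤ 1 / (4 * ε) := by
      calc μ j * ‖v‖ ≤ μ j * (d * |v i0|) := mul_le_mul_of_nonneg_left hnv' hμ.le
        _ = d * s j := by simp only [μ]; field_simp
        _ ≤ d * (2 * a) := mul_le_mul_of_nonneg_left (hs2 j) (by positivity)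
        _ = 1 / (4 * ε) := by rw [ha]; field_simp; norm_num
    have heq : vec (Θ (j, k)) = μ j • v + η := by rw [hη]; abel
    rw [heq]
    apply vec_bound v η (μ j) ε hε hμ h1 h2 hv
    · refine hηn.trans ?_
      calc 1 / (16 * d * ε) = a / 2 := by rw [ha]; field_simp; norm_num
        _ ≤ μ j * ‖v‖ / 2 := by linarith
    · exact hp_hi
    · apply le_of_sq_le_sq _ (by positivity)
      refine hηn.trans ?_
      rw [div_pow, mul_pow, one_pow, div_le_div_iff₀ (by positivity) (by positivity)]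
      nlinarith
  · rw [Finset.card_image_of_injective _ hinj, Finset.card_univ, Fintype.card_prod,
      Fintype.card_fin, Fintype.card_fun, Fintype.card_fin]
    have hc : Fintype.card {i : Fin d // i ≠ i0} = d - 1 := by
      rw [Fintype.card_subtype_compl]; simp
    rw [hc]
    push_cast
    have e1 : 1 / (16 * d * ε) ≤ (K1 : ℝ) := by
      calc 1 / (16 * d * ε) = a / 2 := by rw [ha]; field_simp; norm_num
        _ ≤ _ := floor_half a ha1
    have e2 : β ≤ (K2 : ℝ) := by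
      calc β = 2 * β / 2 := by ring
        _ ≤ _ := floor_half _ hβ1
    exact mul_le_mul e1 (pow_le_pow_left₀ hβ0.le e2 _) (by positivity) (by positivity)

end Pool.Agent.V11168.NA
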