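import Mathlib
import Pool.Agent.V11168.NA3

/-!
# Neighbouring versus antipodal pairs, part 5: assembly
-/

set_option autoImplicit false

namespace Pool.Agent.V11168.NA

open Finset
open scoped InnerProductSpace

variable {d : ℕ}

theorem vec_neg (ξ : Fin d → ℤ) : vec (-ξ) = -vec ξ := by
  ext i; simp [vec]

/-- the antipodal pairs -/
noncomputable def A (X : Finset (EuclideanSpace ℝ (Fin d))) (ε : ℝ) :
    Finset (EuclideanSpace ℝ (Fin d) × EuclideanSpace ℝ (Fin d)) := by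
  classical
  exact (X ×ˢ X).filter fun p => 1 - ε ≤ dist p.1 p.2

theorem small (hd : 1 ≤ d) (X : Finset (EuclideanSpace ℝ (Fin d)))
    (hX : ∀ x ∈ X, ∀ y ∈ X, dist x y ≤ 1) (ε : ℝ) (hε : 0 < ε)
    (hε1 : ε ≤ 1 / (64 * (d : ℝ) ^ 2)) :
    ((A X ε).card : ℝ) * ((1 / (16 * d * ε)) * (1 / (4 * d * √ε)) ^ (d - 1)) ≤
      (81 * ((5 + 2 * √(d : ℝ)) / ε)) ^ d * Q X (cell ε) := by
  classical
  have hd' : (1 : ℝ) ≤ d := by exact_mod_cast hd
  have hε2 : ε ≤ 1 := by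
    refine hε1.trans ?_
    rw [div_le_one (by positivity)]; nlinarith
  set Ξ : Finset (Fin d → ℤ) := (Fintype.piFinset fun _ : Fin d =>
    Finset.Icc (-⌈1 / ε⌉) ⌈1 / ε⌉).filter (fun ξ => ‖vec ξ‖ ≤ 1 / ε) with hΞ
  have hmemΞ : ∀ ξ : Fin d → ℤ, ‖vec ξ‖ ≤ 1 / ε → ξ ∈ Ξ := by
    intro ξ hξ
    rw [hΞ, Finset.mem_filter, Fintype.mem_piFinset]
    refine ⟨fun i => ?_, hξ⟩
    have h1 : |(ξ i : ℝ)| ≤ 1 / ε := (coord_le (vec ξ) i).trans hξ
    have h2 : (1 / ε : ℝ) ≤ ⌈1 / ε⌉ := Int.le_ceil _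
    rw [abs_le] at h1
    rw [Finset.mem_Icc]
    constructor
    · have : (-(⌈1 / ε⌉ : ℤ) : ℝ) ≤ ξ i := by linarith [h1.1]
      exact_mod_cast this
    · have : (ξ i : ℝ) ≤ (⌈1 / ε⌉ : ℤ) := by linarith [h1.2]
      exact_mod_cast this
  refine le_trans ?_ (caps X hX ε hε hε2 Ξ (fun ξ hξ => (Finset.mem_filter.1 hξ).2))
  -- the number of good frequencies
  have hgood : ∀ p ∈ A X ε, (1 / (16 * d * ε)) * (1 / (4 * d * √ε)) ^ (d - 1) ≤
      ((Ξ.filter fun ξ => p.1 ∈ cap X ξ ∧ p.2 ∈ cap X (-ξ)).card : ℝ) := by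
    intro p hp
    have hp' := Finset.mem_filter.1 hp
    have hpX := Finset.mem_product.1 hp'.1
    obtain ⟨G, hG, hGc⟩ := many d hd ε hε hε1 (p.1 - p.2) (by rw [← dist_eq_norm]; exact hp'.2)
      (by rw [← dist_eq_norm]; exact hX _ hpX.1 _ hpX.2)
    refine hGc.trans ?_
    have hsub : G ⊆ Ξ.filter fun ξ => p.1 ∈ cap X ξ ∧ p.2 ∈ cap X (-ξ) := by
      intro ξ hξ
      obtain ⟨h1, h2⟩ := hG ξ hξ
      rw [Finset.mem_filter]
      refine ⟨hmemΞ ξ h1, ?_, ?_⟩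
      · rw [cap, Finset.mem_filter]
        refine ⟨hpX.1, fun z hz => ?_⟩
        have h3 : ⟪vec ξ, z - p.2⟫_ℝ ≤ ‖vec ξ‖ := by
          calc _ ≤ ‖vec ξ‖ * ‖z - p.2‖ := real_inner_le_norm _ _
            _ ≤ ‖vec ξ‖ * 1 := mul_le_mul_of_nonneg_left
              (by rw [← dist_eq_norm]; exact hX _ hz _ hpX.2) (norm_nonneg _)
            _ = _ := mul_one _
        rw [inner_sub_right] at h2 h3
        linarith
      · rw [cap, Finset.mem_filter]
        refine ⟨hpX.2, fun z hz => ?_⟩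
        have h3 : ⟪vec ξ, p.1 - z⟫_ℝ ≤ ‖vec ξ‖ := by
          calc _ ≤ ‖vec ξ‖ * ‖p.1 - z‖ := real_inner_le_norm _ _
            _ ≤ ‖vec ξ‖ * 1 := mul_le_mul_of_nonneg_left
              (by rw [← dist_eq_norm]; exact hX _ hpX.1 _ hz) (norm_nonneg _)
            _ = _ := mul_one _
        rw [inner_sub_right] at h2 h3
        rw [vec_neg, inner_neg_left, inner_neg_left]
        linarith
    exact_mod_cast Finset.card_le_card hsub
  calc ((A X ε).card : ℝ) * ((1 / (16 * d * ε)) * (1 / (4 * d * √ε)) ^ (d - 1))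
      = ∑ _p ∈ A X ε, ((1 / (16 * d * ε)) * (1 / (4 * d * √ε)) ^ (d - 1)) := by
        rw [Finset.sum_const, nsmul_eq_mul]
    _ ≤ ∑ p ∈ A X ε, ((Ξ.filter fun ξ => p.1 ∈ cap X ξ ∧ p.2 ∈ cap X (-ξ)).card : ℝ) :=
        Finset.sum_le_sum hgood
    _ = ∑ ξ ∈ Ξ, (((A X ε).filter fun p => p.1 ∈ cap X ξ ∧ p.2 ∈ cap X (-ξ)).card : ℝ) := by
        simp_rw [Finset.card_filter]
        push_cast
        rw [Finset.sum_comm]
    _ ≤ ∑ ξ ∈ Ξ, ((cap X ξ).card : ℝ) * ((cap X (-ξ)).card : ℝ) := by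
        apply Finset.sum_le_sum
        intro ξ _
        rw [← Nat.cast_mul, ← Finset.card_product]
        have hsub : ((A X ε).filter fun p => p.1 ∈ cap X ξ ∧ p.2 ∈ cap X (-ξ)) ⊆
            cap X ξ ×ˢ cap X (-ξ) := by
          intro p hp
          rw [Finset.mem_product]
          exact (Finset.mem_filter.1 hp).2
        exact_mod_cast Finset.card_le_card hsub
    _ ≤ ∑ ξ ∈ Ξ, ((((cap X ξ).card : ℝ) ^ 2) / 2 + (((cap X (-ξ)).card : ℝ) ^ 2) / 2) := by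
        apply Finset.sum_le_sum
        intro ξ _
        nlinarith [sq_nonneg (((cap X ξ).card : ℝ) - ((cap X (-ξ)).card : ℝ))]
    _ = ∑ ξ ∈ Ξ, ((cap X ξ).card : ℝ) ^ 2 := by
        rw [Finset.sum_add_distrib]
        have : ∑ ξ ∈ Ξ, ((cap X (-ξ)).card : ℝ) ^ 2 / 2 = ∑ ξ ∈ Ξ, ((cap X ξ).card : ℝ) ^ 2 / 2 := by
          refine Finset.sum_nbij' (fun ξ => -ξ) (fun ξ => -ξ) ?_ ?_ ?_ ?_ ?_
          · intro ξ hξ
            apply hmemΞ
            rw [vec_neg, norm_neg]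
            exact (Finset.mem_filter.1 hξ).2
          · intro ξ hξ
            apply hmemΞ
            rw [vec_neg, norm_neg]
            exact (Finset.mem_filter.1 hξ).2
          · intro ξ _; simp
          · intro ξ _; simp
          · intro ξ _; rfl
        rw [this, ← Finset.sum_add_distrib]
        refine Finset.sum_congr rfl fun ξ _ => by ring

/-- the number of cells -/
theorem cells (X : Finset (EuclideanSpace ℝ (Fin d)))
    (hX : ∀ x ∈ X, ∀ y ∈ X, dist x y ≤ 1) (ε : ℝ) (hε : 0 < ε) (hε1 : ε ≤ 1) :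
    ∃ t : Finset (Fin d → ℤ), (∀ x ∈ X, cell ε x ∈ t) ∧ (t.card : ℝ) ≤ (5 / ε) ^ d := by
  classical
  rcases X.eq_empty_or_nonempty with h | ⟨x0, hx0⟩
  · subst h
    exact ⟨∅, by simp, by simp; positivity⟩
  refine ⟨Fintype.piFinset fun i => Finset.Icc (cell ε x0 i - ⌈1 / ε⌉) (cell ε x0 i + ⌈1 / ε⌉),
    ?_, ?_⟩
  · intro x hx
    rw [Fintype.mem_piFinset]
    intro i
    have key : ∀ y ∈ X, ∀ z ∈ X, cell ε y i - cell ε z i ≤ ⌈1 / ε⌉ := by
      intro y hy z hz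
      have h1 := Int.floor_le (y i / ε)
      have h2 := Int.lt_floor_add_one (z i / ε)
      have h3 : y i - z i ≤ 1 := by
        have h4 := coord_le (y - z) i
        have h5 := hX y hy z hz
        rw [dist_eq_norm] at h5
        exact (le_abs_self _).trans (h4.trans h5)
      have h4 : y i / ε - z i / ε ≤ 1 / ε := by
        rw [← sub_div]; exact div_le_div_of_nonneg_right h3 hε.le
      have h5 := Int.le_ceil (1 / ε)
      have h6 : ((⌊y i / ε⌋ - ⌊z i / ε⌋ : ℤ) : ℝ) < ((⌈1 / ε⌉ + 1 : ℤ) : ℝ) := by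
        push_cast; linarith
      have h7 : (⌊y i / ε⌋ - ⌊z i / ε⌋ : ℤ) < ⌈1 / ε⌉ + 1 := by exact_mod_cast h6
      simp only [cell]
      omega
    have h1 := key x hx x0 hx0
    have h2 := key x0 hx0 x hx
    rw [Finset.mem_Icc]
    constructor <;> linarith
  · rw [Fintype.card_piFinset]
    simp only [Int.card_Icc]
    have h1 : ∀ i : Fin d, (cell ε x0 i + ⌈1 / ε⌉ + 1 - (cell ε x0 i - ⌈1 / ε⌉)).toNat =
        (2 * ⌈1 / ε⌉ + 1).toNat := by
      intro i; congr 1; ring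
    simp only [h1]
    rw [Finset.prod_const, Finset.card_univ, Fintype.card_fin]
    push_cast
    apply pow_le_pow_left₀ (Nat.cast_nonneg _)
    have h2 : (0 : ℤ) ≤ ⌈1 / ε⌉ := Int.ceil_nonneg (by positivity)
    have h3 : (((2 * ⌈1 / ε⌉ + 1).toNat : ℕ) : ℝ) = 2 * ⌈1 / ε⌉ + 1 := by
      have : (((2 * ⌈1 / ε⌉ + 1).toNat : ℕ) : ℤ) = 2 * ⌈1 / ε⌉ + 1 :=
        Int.toNat_of_nonneg (by omega)
      exact_mod_cast this
    rw [h3]
    have h4 := Int.ceil_lt_add_one (1 / ε)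
    have h5 : 1 ≤ 1 / ε := by rw [le_div_iff₀ hε]; linarith
    have h6 : 5 / ε = 5 * (1 / ε) := by ring
    rw [h6]
    linarith

/-- the constant -/
noncomputable def CD (d : ℕ) : ℝ :=
  (81 * (5 + 2 * √(d : ℝ))) ^ d * (16 * d * (4 * d) ^ (d - 1)) + (320 * (d : ℝ) ^ 2) ^ d

theorem CD_pos (hd : 1 ≤ d) : 0 < CD d := by
  have hd' : (1 : ℝ) ≤ d := by exact_mod_cast hd
  unfold CD
  positivity

theorem sq_card_eq {E : Type*} [DecidableEq E] (X : Finset E) :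
    (X.card : ℝ) ^ 2 = Q X (fun _ => ()) := by
  unfold Q
  simp [Finset.card_product, sq]

theorem claim (hd : 1 ≤ d) (X : Finset (EuclideanSpace ℝ (Fin d)))
    (hX : ∀ x ∈ X, ∀ y ∈ X, dist x y ≤ 1) (ε : ℝ) (hε : 0 < ε) (hε1 : ε ≤ 1) :
    ((A X ε).card : ℝ) * √ε ^ (d - 1) ≤ CD d * Q X (cell ε) := by
  classical
  have hd' : (1 : ℝ) ≤ d := by exact_mod_cast hd
  have hQ : (0 : ℝ) ≤ Q X (cell ε) := Nat.cast_nonneg _
  have hA : (0 : ℝ) ≤ (A X ε).card := Nat.cast_nonneg _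
  have hs : 0 < √ε := Real.sqrt_pos.2 hε
  have hs2 : √ε ^ 2 = ε := Real.sq_sqrt hε.le
  rcases le_or_gt ε (1 / (64 * (d : ℝ) ^ 2)) with h | h
  · have h1 := small hd X hX ε hε h
    have h2 : ((A X ε).card : ℝ) * √ε ^ (d - 1) ≤
        (81 * (5 + 2 * √(d : ℝ))) ^ d * (16 * d * (4 * d) ^ (d - 1)) * Q X (cell ε) := by
      set W : ℝ := (1 / (16 * d * ε)) * (1 / (4 * d * √ε)) ^ (d - 1) with hW
      have hWpos : 0 < W := by positivity
      have e1 : √ε ^ (d - 1) * (ε ^ d)⁻¹ * √ε ^ (d - 1) * ε = 1 := by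
        have : √ε ^ (d - 1) * √ε ^ (d - 1) * ε = ε ^ d := by
          rw [← pow_add, ← two_mul, pow_mul, hs2, ← pow_succ]
          congr 1; omega
        calc √ε ^ (d - 1) * (ε ^ d)⁻¹ * √ε ^ (d - 1) * ε =
              (√ε ^ (d - 1) * √ε ^ (d - 1) * ε) * (ε ^ d)⁻¹ := by ring
          _ = 1 := by rw [this]; exact mul_inv_cancel₀ (by positivity)
      have e2 : W * (16 * d * (4 * d) ^ (d - 1)) * (ε * √ε ^ (d - 1)) = 1 := by
        rw [hW, div_pow, mul_pow, one_pow]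
        field_simp
      have e3 : (81 * ((5 + 2 * √(d : ℝ)) / ε)) ^ d = (81 * (5 + 2 * √(d : ℝ))) ^ d * (ε ^ d)⁻¹ := by
        rw [← mul_div_assoc, div_pow, div_eq_mul_inv]
      rw [e3] at h1
      -- multiply `h1` by `(16 d (4 d)^(d-1)) ε √ε^(d-1) √ε^(d-1)`
      have h3 := mul_le_mul_of_nonneg_right h1
        (show 0 ≤ (16 * d * (4 * d) ^ (d - 1)) * (ε * √ε ^ (d - 1)) * √ε ^ (d - 1) by positivity)
      calc ((A X ε).card : ℝ) * √ε ^ (d - 1) = ((A X ε).card : ℝ) *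
            (W * (16 * d * (4 * d) ^ (d - 1)) * (ε * √ε ^ (d - 1))) * √ε ^ (d - 1) := by
            rw [e2, mul_one]
        _ = ((A X ε).card : ℝ) * W *
            ((16 * d * (4 * d) ^ (d - 1)) * (ε * √ε ^ (d - 1)) * √ε ^ (d - 1)) := by ring
        _ ≤ _ := h3
        _ = (81 * (5 + 2 * √(d : ℝ))) ^ d * (16 * d * (4 * d) ^ (d - 1)) * Q X (cell ε) *
            (√ε ^ (d - 1) * (ε ^ d)⁻¹ * √ε ^ (d - 1) * ε) := by ring
        _ = _ := by rw [e1, mul_one]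
    refine h2.trans ?_
    rw [CD, add_mul]
    have : 0 ≤ (320 * (d : ℝ) ^ 2) ^ d * (Q X (cell ε) : ℝ) := by positivity
    linarith
  · obtain ⟨t, ht, htc⟩ := cells X hX ε hε hε1
    have h1 : ((A X ε).card : ℝ) ≤ (X.card : ℝ) ^ 2 := by
      have : (A X ε).card ≤ (X ×ˢ X).card := Finset.card_le_card (Finset.filter_subset _ _)
      rw [Finset.card_product] at this
      rw [sq]; exact_mod_cast this
    have h2 : (X.card : ℝ) ^ 2 ≤ t.card * (Q X (cell ε) : ℝ) := by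
      rw [sq_card_eq]
      refine (Q_refine X (fun _ => ()) (cell ε) t ht).trans (le_of_eq ?_)
      congr 2
      unfold Q
      congr 1
      ext p
      simp
    have h3 : (t.card : ℝ) ≤ (320 * (d : ℝ) ^ 2) ^ d := by
      refine htc.trans (pow_le_pow_left₀ (by positivity) ?_ _)
      rw [div_le_iff₀ hε]
      rw [div_lt_iff₀ (by positivity)] at h
      nlinarith
    have h4 : √ε ^ (d - 1) ≤ 1 := pow_le_one₀ hs.le (by
      rw [Real.sqrt_le_one]; exact hε1)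
    calc ((A X ε).card : ℝ) * √ε ^ (d - 1) ≤ (A X ε).card * 1 :=
          mul_le_mul_of_nonneg_left h4 hA
      _ ≤ t.card * (Q X (cell ε) : ℝ) := by rw [mul_one]; exact h1.trans h2
      _ ≤ (320 * (d : ℝ) ^ 2) ^ d * Q X (cell ε) := mul_le_mul_of_nonneg_right h3 hQ
      _ ≤ _ := by
        rw [CD, add_mul]
        have : 0 ≤ (81 * (5 + 2 * √(d : ℝ))) ^ d * (16 * d * (4 * d) ^ (d - 1)) *
          (Q X (cell ε) : ℝ) := by positivity
        linarith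

/-- the neighbouring pairs -/
noncomputable def Nb (X : Finset (EuclideanSpace ℝ (Fin d))) (ε : ℝ) :
    Finset (EuclideanSpace ℝ (Fin d) × EuclideanSpace ℝ (Fin d)) := by
  classical
  exact X.offDiag.filter fun p => dist p.1 p.2 ≤ ε

theorem Q_le_Nb {α : Type*} [DecidableEq α] (X : Finset (EuclideanSpace ℝ (Fin d))) (ε : ℝ)
    (φ : EuclideanSpace ℝ (Fin d) → α)
    (hφ : ∀ x ∈ X, ∀ y ∈ X, φ x = φ y → dist x y ≤ ε) :
    (Q X φ : ℝ) ≤ X.card + (Nb X ε).card := by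
  classical
  have hsub : ((X ×ˢ X).filter fun p => φ p.1 = φ p.2) ⊆ X.diag ∪ Nb X ε := by
    intro p hp
    rw [Finset.mem_filter, Finset.mem_product] at hp
    rw [Finset.mem_union]
    by_cases h : p.1 = p.2
    · left; rw [Finset.mem_diag]; exact ⟨hp.1.1, h⟩
    · right
      rw [Nb, Finset.mem_filter, Finset.mem_offDiag]
      exact ⟨⟨hp.1.1, hp.1.2, h⟩, hφ _ hp.1.1 _ hp.1.2 hp.2⟩
  have h1 := (Finset.card_le_card hsub).trans (Finset.card_union_le _ _)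
  rw [Finset.diag_card] at h1
  unfold Q
  exact_mod_cast h1

theorem near (hd : 1 ≤ d) (x y : EuclideanSpace ℝ (Fin d)) (ε : ℝ) (hε : 0 < ε)
    (h : ∀ i, |x i - y i| ≤ ε / d) : dist x y ≤ ε := by
  have hd' : (1 : ℝ) ≤ d := by exact_mod_cast hd
  rw [dist_eq_norm]
  apply le_of_sq_le_sq _ hε.le
  rw [EuclideanSpace.norm_sq_eq]
  calc ∑ i, ‖(x - y) i‖ ^ 2 ≤ ∑ _i : Fin d, (ε / d) ^ 2 :=
        Finset.sum_le_sum fun i _ => pow_le_pow_left₀ (norm_nonneg _) (h i) 2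
    _ = ε ^ 2 / d := by simp; field_simp
    _ ≤ ε ^ 2 := div_le_self (by positivity) hd'

theorem many_nb (hd : 1 ≤ d) (X : Finset (EuclideanSpace ℝ (Fin d)))
    (hX : ∀ x ∈ X, ∀ y ∈ X, dist x y ≤ 1) (ε : ℝ) (hε : 0 < ε) (hε1 : ε ≤ 1)
    (hn : 2 * (5 * d / ε) ^ d ≤ (X.card : ℝ)) : (X.card : ℝ) ≤ (Nb X ε).card := by
  classical
  have hd' : (1 : ℝ) ≤ d := by exact_mod_cast hd
  have hs : 0 < ε / d := by positivity
  have hs1 : ε / d ≤ 1 := by rw [div_le_one (by positivity)]; linarith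
  obtain ⟨t, ht, htc⟩ := cells X hX (ε / d) hs hs1
  have h1 := Q_refine X (fun _ => ()) (cell (ε / d)) t ht
  rw [← sq_card_eq] at h1
  have h2 : (Q X (fun x => ((), cell (ε / d) x)) : ℝ) ≤ X.card + (Nb X ε).card := by
    apply Q_le_Nb
    intro x _ y _ hxy
    have hxy' : cell (ε / d) x = cell (ε / d) y := (Prod.mk.inj hxy).2
    apply near hd x y ε hε
    intro i
    have h3 := congrFun hxy' i
    simp only [cell] at h3
    have h4 := Int.abs_sub_lt_one_of_floor_eq_floor h3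
    rw [← sub_div, abs_div, abs_of_pos hs, div_lt_one hs] at h4
    exact h4.le
  have h3 : (5 / (ε / d)) ^ d = (5 * d / ε) ^ d := by
    congr 1; field_simp
  rw [h3] at htc
  have hc0 : (0 : ℝ) ≤ X.card := Nat.cast_nonneg _
  have hN0 : (0 : ℝ) ≤ (Nb X ε).card := Nat.cast_nonneg _
  have h4 : (X.card : ℝ) ^ 2 ≤ (X.card / 2) * (X.card + (Nb X ε).card) := by
    calc (X.card : ℝ) ^ 2 ≤ t.card * (Q X (fun x => ((), cell (ε / d) x)) : ℝ) := h1
      _ ≤ (X.card / 2) * (X.card + (Nb X ε).card) :=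
        mul_le_mul (by linarith) h2 (Nat.cast_nonneg _) (by positivity)
  have hcpos : (0 : ℝ) < X.card := lt_of_lt_of_le (by positivity) hn
  have h5 : (X.card : ℝ) * X.card ≤ X.card * (Nb X ε).card := by nlinarith
  exact le_of_mul_le_mul_left h5 hcpos

theorem refine_scale (hd : 1 ≤ d) (X : Finset (EuclideanSpace ℝ (Fin d))) (ε₁ ε : ℝ)
    (hε1 : 0 < ε₁) (hle : ε₁ ≤ ε) :
    (Q X (cell ε) : ℝ) ≤ ((d + 1) * ε / ε₁) ^ d * (X.card + (Nb X ε₁).card) := by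
  classical
  have hd' : (1 : ℝ) ≤ d := by exact_mod_cast hd
  have hε : 0 < ε := hε1.trans_le hle
  have hs : 0 < ε₁ / d := by positivity
  set s := ε₁ / d with hsdef
  let ψ : EuclideanSpace ℝ (Fin d) → (Fin d → ℤ) := fun x i => ⌊(x i - ε * cell ε x i) / s⌋
  have hrem : ∀ y : EuclideanSpace ℝ (Fin d), ∀ i, 0 ≤ y i - ε * (cell ε y i : ℝ) ∧
      y i - ε * (cell ε y i : ℝ) < ε := by
    intro y i
    have h1 := Int.floor_le (y i / ε)
    have h2 := Int.lt_floor_add_one (y i / ε)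
    rw [le_div_iff₀ hε] at h1
    rw [div_lt_iff₀ hε] at h2
    unfold cell
    constructor <;> linarith
  set t : Finset (Fin d → ℤ) := Fintype.piFinset fun _ => Finset.Icc 0 ⌊ε / s⌋ with ht
  have hψ : ∀ x ∈ X, ψ x ∈ t := by
    intro x _
    rw [ht, Fintype.mem_piFinset]
    intro i
    rw [Finset.mem_Icc]
    exact ⟨Int.floor_nonneg.2 (div_nonneg (hrem x i).1 hs.le),
      Int.floor_le_floor (div_le_div_of_nonneg_right (hrem x i).2.le hs.le)⟩
  have hrat : 1 ≤ ε / ε₁ := by rw [le_div_iff₀ hε1]; linarith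
  have htc : (t.card : ℝ) ≤ ((d + 1) * ε / ε₁) ^ d := by
    rw [ht, Fintype.card_piFinset]
    simp only [Int.card_Icc]
    rw [Finset.prod_const, Finset.card_univ, Fintype.card_fin]
    push_cast
    apply pow_le_pow_left₀ (Nat.cast_nonneg _)
    have h0 : (0 : ℤ) ≤ ⌊ε / s⌋ := Int.floor_nonneg.2 (by positivity)
    have h1 : (((⌊ε / s⌋ + 1 - 0).toNat : ℕ) : ℝ) = ⌊ε / s⌋ + 1 := by
      have : (((⌊ε / s⌋ + 1 - 0).toNat : ℕ) : ℤ) = ⌊ε / s⌋ + 1 := by
        rw [sub_zero]; exact Int.toNat_of_nonneg (by omega)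
      exact_mod_cast this
    rw [h1]
    have h2 := Int.floor_le (ε / s)
    have h3 : ε / s = d * (ε / ε₁) := by rw [hsdef]; field_simp
    have h4 : (d + 1) * ε / ε₁ = d * (ε / ε₁) + ε / ε₁ := by ring
    rw [h4]
    linarith
  refine (Q_refine X (cell ε) ψ t hψ).trans ?_
  apply mul_le_mul htc _ (Nat.cast_nonneg _) (by positivity)
  apply Q_le_Nb
  intro x _ y _ hxy
  have hc : cell ε x = cell ε y := (Prod.mk.inj hxy).1
  have hp : ψ x = ψ y := (Prod.mk.inj hxy).2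
  apply near hd x y ε₁ hε1
  intro i
  have h3 := congrFun hp i
  simp only [ψ] at h3
  have h4 := Int.abs_sub_lt_one_of_floor_eq_floor h3
  rw [← sub_div, abs_div, abs_of_pos hs, div_lt_one hs, hc] at h4
  have h5 : x i - ε * (cell ε y i : ℝ) - (y i - ε * (cell ε y i : ℝ)) = x i - y i := by ring
  rw [h5] at h4
  exact h4.le

theorem final1 (hd : 1 ≤ d) (X : Finset (EuclideanSpace ℝ (Fin d)))
    (hX : ∀ x ∈ X, ∀ y ∈ X, dist x y ≤ 1) (ε₁ ε : ℝ) (hε1 : 0 < ε₁) (hle : ε₁ ≤ ε) (hε : ε ≤ 1)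
    (hn : 2 * (5 * d / ε₁) ^ d ≤ (X.card : ℝ)) :
    ((A X ε).card : ℝ) * √ε ^ (d - 1) ≤
      2 * CD d * ((d + 1) * ε / ε₁) ^ d * (Nb X ε₁).card := by
  have h1 := claim hd X hX ε (hε1.trans_le hle) hε
  have h2 := refine_scale hd X ε₁ ε hε1 hle
  have h3 := many_nb hd X hX ε₁ hε1 (hle.trans hε) hn
  have hε0 : 0 < ε := hε1.trans_le hle
  calc _ ≤ CD d * Q X (cell ε) := h1
    _ ≤ CD d * (((d + 1) * ε / ε₁) ^ d * (X.card + (Nb X ε₁).card)) :=
      mul_le_mul_of_nonneg_left h2 (CD_pos hd).le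
    _ ≤ CD d * (((d + 1) * ε / ε₁) ^ d * (2 * (Nb X ε₁).card)) := by
      apply mul_le_mul_of_nonneg_left _ (CD_pos hd).le
      apply mul_le_mul_of_nonneg_left _ (by positivity)
      linarith
    _ = _ := by ring

end Pool.Agent.V11168.NA
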